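import Pool.Agent.H71.CQ.Basic

/-!
# GLU: the glueing criterion
-/

set_option autoImplicit false

open Set

namespace Pool.Agent.H60.CQ

open Pool.Agent.H71.CQ

theorem equiv_of_encard {A B : Type} {s : Set A} {t : Set B} (ht : t.Finite)
    (h : s.encard = t.encard) : Nonempty (s ≃ t) := by
  have hs : s.Finite := by
    rw [← Set.encard_lt_top_iff, h, Set.encard_lt_top_iff]
    exact ht
  haveI : Finite s := hs
  haveI : Finite t := ht
  refine Finite.card_eq.1 ?_
  rw [Nat.card_coe_set_eq, Nat.card_coe_set_eq, Set.ncard, Set.ncard, h]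

theorem pf_GLU (hDEG : T_DEG) : T_GLU := by
  intro L N hN V E hE hx
  refine ⟨hE, fun n x => ?_⟩
  obtain ⟨V0, e, x0, he, hc, hcl, hinf⟩ := hx x
  by_cases hn : N.nu n (E x x) = ⊤
  · rw [hn, Set.encard_eq_top_iff]
    exact hinf n hn
  · have hA : ∀ y, E x y ∈ N.B n → ¬ Op N (E x y) := by
      intro y hy hop
      exact hn (by rw [hE.src x y]; exact hop n hy)
    have hB : ∀ y, e x0 y ∈ N.B n → ¬ Op N (e x0 y) := by
      intro y hy hop
      apply hn
      rw [← hc, he.src x0 y]
      exact hop n hy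
    have hF : ∀ l : {l // l ∈ N.B n}, Nonempty ({y // E x y = l} ≃ {y // e x0 y = l}) := by
      rintro ⟨l, hl⟩
      by_cases hop : Op N l
      · haveI : IsEmpty {y // E x y = l} := ⟨fun ⟨y, hy⟩ => hA y (by rw [hy]; exact hl)
          (by rw [hy]; exact hop)⟩
        haveI : IsEmpty {y // e x0 y = l} := ⟨fun ⟨y, hy⟩ => hB y (by rw [hy]; exact hl)
          (by rw [hy]; exact hop)⟩
        exact ⟨Equiv.equivOfIsEmpty _ _⟩
      · exact equiv_of_encard (hDEG L N hN V0 V0 e e he he x0 x0 rfl l hop).1 (hcl l hop)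
    have hF' : ∀ l : {l // l ∈ N.B n}, Nonempty ({y // E x y = l} ≃ {y // e x0 y = l}) := hF
    let F := fun l => (hF' l).some
    have tot : {y // E x y ∈ N.B n} ≃ {y // e x0 y ∈ N.B n} :=
      (Equiv.sigmaSubtypeFiberEquivSubtype (p := fun y => E x y ∈ N.B n)
        (q := fun l => l ∈ N.B n) (E x) (fun _ => Iff.rfl)).symm.trans
        ((Equiv.sigmaCongrRight F).trans
          (Equiv.sigmaSubtypeFiberEquivSubtype (p := fun y => e x0 y ∈ N.B n)
            (q := fun l => l ∈ N.B n) (e x0) (fun _ => Iff.rfl)))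
    rw [← hc, ← he.cnt n x0]
    exact Set.encard_congr tot

end Pool.Agent.H60.CQ
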