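import Pool.Agent.H71.CQ.Basic

/-!
# LNA: infinitely many linked points give the data
-/

set_option autoImplicit false

open Set

namespace Pool.Agent.H60.CQ

open Pool.Agent.H71.CQ

theorem pf_LNA (hORB : T_ORB) : T_LNA := by
  intro L N hN e he x hx hinf
  classical
  let W : Type := {k // Wp N e k}
  let s : Setoid W :=
    { r := fun a b => ∃ h : W ≃ W, WIso N e e h ∧ h a = b
      iseqv :=
        { refl := fun a => ⟨Equiv.refl _, fun _ _ => rfl, rfl⟩
          symm := by
            rintro a b ⟨h, h1, h2⟩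
            exact ⟨h.symm, h1.symm, by rw [← h2, h.symm_apply_apply]⟩
          trans := by
            rintro a b c ⟨h, h1, h2⟩ ⟨h', h1', h2'⟩
            exact ⟨h.trans h', h1.trans h1', by
              change h' (h a) = c
              rw [h2, h2']⟩ } }
  let π : W → Quotient s := Quotient.mk s
  have hπ : ∀ a b, π a = π b ↔ ∃ h : W ≃ W, WIso N e e h ∧ h a = b := fun a b => Quotient.eq
  have himg : (π '' {k | Lk N e x k}).Infinite := by
    intro hfin
    refine hinf (Set.Finite.of_finite_fibers π hfin ?_)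
    rintro _ ⟨a, _, rfl⟩
    refine (hORB L N hN ℕ ℕ e e he he (fun _ => Iff.rfl) a).subset ?_
    rintro b ⟨_, hb⟩
    exact (hπ a b).1 (show π b = π a from hb).symm
  let emb := himg.natEmbedding
  have hk : ∀ i : ℕ, ∃ k : W, Lk N e x k ∧ π k = (emb i).1 := by
    intro i
    obtain ⟨k, hk, hk'⟩ := (emb i).2
    exact ⟨k, hk, hk'⟩
  choose k hk1 hk2 using hk
  choose h hh y hy hne using hk1
  refine ⟨fun i => {k' | ∃ h : W ≃ W, WIso N e e h ∧ h (k i) = k'}, y,
    fun i => Equiv.swap (k i) (h i (k i)), he, hx, ?_, ?_, ?_, hy, ?_, ?_⟩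
  · intro i j hij
    rw [Set.disjoint_left]
    rintro k' ⟨f, hf, e1⟩ ⟨f', hf', e2⟩
    have h1 : π (k i) = π k' := (hπ _ _).2 ⟨f, hf, e1⟩
    have h2 : π (k j) = π k' := (hπ _ _).2 ⟨f', hf', e2⟩
    have h3 : emb i = emb j := by
      apply Subtype.ext
      rw [← hk2, ← hk2, h1, h2]
    exact hij (emb.injective h3)
  · intro f hf i a
    constructor
    · rintro ⟨f', hf', e1⟩
      exact ⟨f'.trans f, hf'.trans hf, by
        change f (f' (k i)) = f a
        rw [e1]⟩
    · rintro ⟨f', hf', e1⟩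
      refine ⟨f'.trans f.symm, hf'.trans hf.symm, ?_⟩
      change f.symm (f' (k i)) = a
      rw [e1, f.symm_apply_apply]
  · rintro i a ⟨f, hf, e1⟩ b ⟨f', hf', e2⟩
    refine ⟨f.symm.trans f', hf.symm.trans hf', ?_⟩
    change f' (f.symm a) = b
    rw [← e1, f.symm_apply_apply, e2]
  · intro i a ha
    apply Equiv.swap_apply_of_ne_of_ne
    · intro e1
      exact ha ⟨Equiv.refl _, fun _ _ => rfl, e1.symm⟩
    · intro e1
      exact ha ⟨h i, hh i, e1.symm⟩
  · intro i
    refine ⟨k i, ⟨Equiv.refl _, fun _ _ => rfl, rfl⟩, ?_⟩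
    rw [Equiv.swap_apply_left]
    exact hne i

end Pool.Agent.H60.CQ
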