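import Pool.Agent.H71.CQ.Basic

/-!
# SUW: the algebraic part and the components of a sum
-/

set_option autoImplicit false

open Set

namespace Pool.Agent.H60.CQ

open Pool.Agent.H71.CQ

theorem pf_SUW (hWTR : T_WTR) (hWCH : T_WCH) : T_SUW := by
  intro L N hN e0 J e g cr h
  classical
  have E1 : ∀ k k', SE N e0 e g cr (Sum.inl k) (Sum.inl k') = e0 k k' := fun _ _ => rfl
  have E2 : ∀ k v, SE N e0 e g cr (Sum.inl k) (Sum.inr v) = e v.1 (g v.1 k) v.2 := fun _ _ => rfl
  have E4 : ∀ v w : SQ N e, v.1 = w.1 →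
      SE N e0 e g cr (Sum.inr v) (Sum.inr w) = e v.1 v.2 w.2 := fun v w hvw => if_pos hvw
  have E5 : ∀ v w : SQ N e, v.1 ≠ w.1 →
      SE N e0 e g cr (Sum.inr v) (Sum.inr w) = cr v w := fun v w hvw => if_neg hvw
  -- the copy `j` in the sum
  let f : J → ℕ → SV N e0 e := fun j x => if hx : Wp N (e j) x then
    Sum.inl ((g j).symm ⟨x, hx⟩) else Sum.inr ⟨j, x, hx⟩
  have f1 : ∀ j x (hx : Wp N (e j) x), f j x = Sum.inl ((g j).symm ⟨x, hx⟩) :=
    fun j x hx => dif_pos hx
  have f2 : ∀ j x (hx : ¬ Wp N (e j) x), f j x = Sum.inr ⟨j, x, hx⟩ := fun j x hx => dif_neg hx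
  have f3 : ∀ j, Function.Injective (f j) := by
    intro j x y hxy
    by_cases hx : Wp N (e j) x <;> by_cases hy : Wp N (e j) y
    · rw [f1 j x hx, f1 j y hy] at hxy
      have := (g j).symm.injective (Sum.inl.inj hxy)
      exact congrArg Subtype.val this
    · rw [f1 j x hx, f2 j y hy] at hxy
      cases hxy
    · rw [f2 j x hx, f1 j y hy] at hxy
      cases hxy
    · rw [f2 j x hx, f2 j y hy] at hxy
      have := Sum.inr.inj hxy
      rw [Sigma.mk.injEq] at this
      have h2 := eq_of_heq this.2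
      exact congrArg Subtype.val h2
  have f4 : ∀ j x, SE N e0 e g cr (f j x) (f j x) = e j x x := by
    intro j x
    by_cases hx : Wp N (e j) x
    · rw [f1 j x hx, E1, ← h.w j, (g j).apply_symm_apply]
    · rw [f2 j x hx, E4 _ _ rfl]
  have hW : ∀ k, Wp N (SE N e0 e g cr) (Sum.inl k) := by
    refine hWTR L N ℕ (SV N e0 e) e0 (SE N e0 e g cr) Sum.inl E1 ?_
    intro x hx
    have hsub : Srt (SE N e0 e g cr) (e0 x x) ⊆ Sum.inl '' {k : {x // Wp N e0 x} |
        e0 k k = e0 x x} := by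
      rintro (k | v) ha
      · exact ⟨k, ha, rfl⟩
      · exfalso
        have ha' : e v.1 v.2 v.2 = e0 x x := by
          rw [← E4 v v rfl]
          exact ha
        have h1 := srt_inf v.2.2
        rw [ha', ← h.s v.1] at h1
        exact h1 hx
    refine Set.Finite.subset (Set.Finite.image _ ?_) hsub
    exact Set.Finite.of_finite_image (f := Subtype.val) (hx.subset (by
      rintro _ ⟨k, hk, rfl⟩
      exact hk)) Subtype.val_injective.injOn
  have cc : ∀ (j j' : J) (_ : j = j') (a b : ℕ), Cm N (e j) a b → Cm N (e j') a b := by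
    rintro j _ rfl a b h
    exact h
  let c : SV N e0 e → SV N e0 e → Prop := fun a b =>
    match a, b with
    | .inl _, .inl _ => True
    | .inl _, .inr _ => False
    | .inr _, .inl _ => False
    | .inr v, .inr w => v.1 = w.1 ∧ Cm N (e v.1) v.2 w.2
  have hP : ∀ a : SV N e0 e, a ∉ Set.range (Sum.inl : _ → SV N e0 e) ↔ ∃ v, a = Sum.inr v := by
    rintro (k | v)
    · constructor
      · intro h; exact (h ⟨k, rfl⟩).elim
      · rintro ⟨v, hv⟩; cases hv
    · constructor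
      · intro _; exact ⟨v, rfl⟩
      · rintro _ ⟨k, hk⟩; cases hk
  have hmain := hWCH L N (SV N e0 e) (SE N e0 e g cr) (Set.range Sum.inl) c (by
      rintro _ ⟨k, rfl⟩
      exact hW k) (by
      rintro _ ⟨k, rfl⟩ a ha
      obtain ⟨v, rfl⟩ := (hP a).1 ha
      rw [E2]
      exact op_of_wp (g v.1 k).2 v.2.2) (by
      intro a ha
      obtain ⟨v, rfl⟩ := (hP a).1 ha
      rw [E4 v v rfl]
      refine Set.infinite_of_injOn_mapsTo (f3 v.1).injOn ?_ (srt_inf v.2.2)
      intro x hx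
      change SE N e0 e g cr (f v.1 x) (f v.1 x) = _
      rw [f4]
      exact hx) (by
      intro a ha b hb hc
      obtain ⟨v, rfl⟩ := (hP a).1 ha
      obtain ⟨w, rfl⟩ := (hP b).1 hb
      by_cases hvw : v.1 = w.1
      · rw [E4 v w hvw]
        have hc' : ¬ (v.1 = w.1 ∧ Cm N (e v.1) v.2 w.2) := hc
        refine op_of_cm v.2.2 ?_ fun h => hc' ⟨hvw, h⟩
        rw [hvw]
        exact w.2.2
      · rw [E5 v w hvw]
        exact (h.fr v w hvw).2.2.2.2.1) (by
      intro a ha b hb hc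
      obtain ⟨v, rfl⟩ := (hP a).1 ha
      obtain ⟨w, rfl⟩ := (hP b).1 hb
      obtain ⟨j, x, hx⟩ := v
      obtain ⟨j', y, hy⟩ := w
      obtain ⟨hjj, hcm⟩ := (show j = j' ∧ Cm N (e j) x y from hc)
      subst hjj
      have h1 := Relation.ReflTransGen.lift (r := Adj N (e j)) (p := fun x y : SV N e0 e =>
        x ∉ Set.range (Sum.inl : _ → SV N e0 e) ∧ y ∉ Set.range (Sum.inl : _ → SV N e0 e) ∧
        (¬ Op N (SE N e0 e g cr x y) ∨ ¬ Op N (SE N e0 e g cr y x))) (f j) (by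
          rintro z z' ⟨hz, hz', ho⟩
          rw [Function.onFun, f2 j z hz, f2 j z' hz', E4 ⟨j, z, hz⟩ ⟨j, z', hz'⟩ rfl,
            E4 ⟨j, z', hz'⟩ ⟨j, z, hz⟩ rfl]
          exact ⟨(hP _).2 ⟨_, rfl⟩, (hP _).2 ⟨_, rfl⟩, ho⟩) x y hcm
      rw [Function.onFun, f2 j x hx, f2 j y hy] at h1
      exact h1) (by
      rintro (k | v)
      · trivial
      · exact ⟨rfl, cm_refl _⟩) (by
      rintro (k | v) (k' | w) hc
      · trivial
      · exact hc
      · exact hc
      · obtain ⟨h1, h2⟩ := (show v.1 = w.1 ∧ Cm N (e v.1) v.2 w.2 from hc)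
        exact ⟨h1.symm, cc _ _ h1 _ _ h2.symm⟩) (by
      rintro (k | v) (k' | w) (k'' | u) hc hc'
      · trivial
      · exact hc'
      · trivial
      · exact (show False from hc).elim
      · exact hc
      · exact (show False from hc).elim
      · exact hc'
      · obtain ⟨h1, h2⟩ := (show v.1 = w.1 ∧ Cm N (e v.1) v.2 w.2 from hc)
        obtain ⟨h3, h4⟩ := (show w.1 = u.1 ∧ Cm N (e w.1) w.2 u.2 from hc')
        exact ⟨h1.trans h3, h2.trans (cc _ _ h1.symm _ _ h4)⟩)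
  refine ⟨hW, ?_, ?_⟩
  · intro v hv
    exact (hP _).2 ⟨v, rfl⟩ ((hmain.1 _).1 hv)
  · intro v w
    rw [hmain.2 _ ((hP _).2 ⟨v, rfl⟩)]
    constructor
    · rintro ⟨_, h⟩; exact h
    · intro h; exact ⟨(hP _).2 ⟨w, rfl⟩, h⟩

end Pool.Agent.H60.CQ
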