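import Pool.Agent.H71.CQ.Basic

/-!
# LIM: compactness of the set of isomorphisms of the algebraic parts
-/

set_option autoImplicit false

open Set

namespace Pool.Agent.H60.CQ

open Pool.Agent.H71.CQ

theorem pf_LIM (hORB : T_ORB) : T_LIM := by
  intro L N hN V V' e e' he he' hq h hh
  classical
  let U : Ultrafilter ℕ := Filter.hyperfilter ℕ
  have key : ∀ (A B : Type) (a : ℕ → A → B) (S : A → Set B), (∀ k, (S k).Finite) →
      (∀ n k, a n k ∈ S k) → ∀ k, ∃ k', {n | a n k = k'} ∈ U := by
    intro A B a S hS ha k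
    have h1 : (⋃ i ∈ S k, {n | a n k = i}) ∈ U := by
      have : (⋃ i ∈ S k, {n | a n k = i}) = Set.univ := by
        ext n
        simp only [Set.mem_iUnion, Set.mem_setOf_eq, Set.mem_univ, iff_true]
        exact ⟨a n k, ha n k, rfl⟩
      rw [this]
      exact Filter.univ_mem
    rw [Ultrafilter.finite_biUnion_mem_iff (hS k)] at h1
    obtain ⟨i, _, hi⟩ := h1
    exact ⟨i, hi⟩
  have k1 := key _ _ (fun n k => h n k) _ (hORB L N hN V V' e e' he he' hq)
    (fun n k => ⟨h n, hh n, rfl⟩)
  have k2 := key _ _ (fun n k => (h n).symm k) _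
    (hORB L N hN V' V e' e he' he (fun q => (hq q).symm))
    (fun n k => ⟨(h n).symm, (hh n).symm, rfl⟩)
  choose H0 hH using k1
  choose G0 hG using k2
  have ne : ∀ s ∈ U, s.Nonempty := fun s hs => Ultrafilter.nonempty_of_mem hs
  let h0 : {x // Wp N e x} ≃ {x // Wp N e' x} :=
    { toFun := H0
      invFun := G0
      left_inv := by
        intro k
        obtain ⟨n, hn1, hn2⟩ := ne _ (Filter.inter_mem (hH k) (hG (H0 k)))
        have h1 : h n k = H0 k := hn1
        have h2 : (h n).symm (H0 k) = G0 (H0 k) := hn2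
        rw [← h2, ← h1, Equiv.symm_apply_apply]
      right_inv := by
        intro k
        obtain ⟨n, hn1, hn2⟩ := ne _ (Filter.inter_mem (hG k) (hH (G0 k)))
        have h1 : (h n).symm k = G0 k := hn1
        have h2 : h n (G0 k) = H0 (G0 k) := hn2
        rw [← h2, ← h1, Equiv.apply_symm_apply] }
  refine ⟨h0, ?_, ?_⟩
  · intro x y
    obtain ⟨n, hn1, hn2⟩ := ne _ (Filter.inter_mem (hH x) (hH y))
    have h1 : h n x = H0 x := hn1
    have h2 : h n y = H0 y := hn2
    change e' (H0 x) (H0 y) = e x y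
    rw [← h1, ← h2]
    exact hh n x y
  · intro K hK m
    have h1 : {n | ∀ k ∈ K, h n k = H0 k} ∈ U := by
      have : {n | ∀ k ∈ K, h n k = H0 k} = ⋂ k ∈ K, {n | h n k = H0 k} := by
        ext n
        simp only [Set.mem_iInter, Set.mem_setOf_eq]
      rw [this]
      exact (Filter.biInter_mem hK).2 fun k _ => hH k
    have h2 : {n | m ≤ n} ∈ U := by
      have : {n | m ≤ n} ∈ (Filter.cofinite : Filter ℕ) := by
        rw [Filter.mem_cofinite]
        exact (Set.finite_lt_nat m).subset fun n hn => not_le.1 (show ¬ m ≤ n from hn)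
      exact Filter.hyperfilter_le_cofinite this
    obtain ⟨n, hn1, hn2⟩ := ne _ (Filter.inter_mem h1 h2)
    exact ⟨n, hn2, fun k hk => (hn1 k hk).symm⟩

end Pool.Agent.H60.CQ
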